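import Mathlib
import Pool.Agent.P.MP_2feb70_lc.Gr.Main

namespace Pool.Agent.Results.MP_2feb70_lc.GraphHeights

open CategoryTheory FirstOrder Pool.Agent.P.MP_2feb70_lc

/-- The heights of ages `A` with `D(A)` well-founded are exactly the countable ordinals, whether
one allows every relational similarity type, only finite ones, or only well-quasi-ordered ages of
finite simple graphs. -/
theorem result (α : Ordinal.{1}) :
    List.TFAE
      [α < Ordinal.omega 1,
       ∃ (L : FirstOrder.Language.{0, 0}) (_ : L.IsRelational)
         (A : Set (Bundled.{0} L.Structure)) (hA : IsAge L A)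
         (_ : IsWellFounded (Subages L A) (Below L A)), height L A hA = α,
       ∃ (L : FirstOrder.Language.{0, 0}) (_ : L.IsRelational) (_ : Finite (Σ n, L.Relations n))
         (A : Set (Bundled.{0} L.Structure)) (hA : IsAge L A)
         (_ : IsWellFounded (Subages L A) (Below L A)), height L A hA = α,
       ∃ (A : Set (Bundled.{0} FirstOrder.Language.graph.Structure))
         (hA : IsAge FirstOrder.Language.graph A)
         (_ : IsWellFounded (Subages FirstOrder.Language.graph A)
           (Below FirstOrder.Language.graph A)),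
         (∀ G ∈ A, G ⊨ FirstOrder.Language.Theory.simpleGraph) ∧
         (A.PartiallyWellOrderedOn fun G H => Nonempty (G ↪[FirstOrder.Language.graph] H)) ∧
         height FirstOrder.Language.graph A hA = α] := by
  tfae_have 1 → 4 := Gr.exists_graph_height
  tfae_have 4 → 3 := by
    rintro ⟨A, hA, hwf, -, -, h⟩
    refine ⟨FirstOrder.Language.graph, inferInstance, ?_, A, hA, hwf, h⟩
    refine Finite.of_surjective (fun _ : Unit => ⟨2, FirstOrder.Language.adj⟩) ?_
    rintro ⟨n, ⟨⟩⟩
    exact ⟨(), rfl⟩
  tfae_have 3 → 2 := fun ⟨L, h1, _, h⟩ => ⟨L, h1, h⟩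
  tfae_have 2 → 1 := by
    rintro ⟨L, _, A, hA, _, rfl⟩
    exact height_lt hA
  tfae_finish

end Pool.Agent.Results.MP_2feb70_lc.GraphHeights
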